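import Mathlib
import Pool.Agent.L5helper9.Arr7

/-!
# The limit law of the defect for arbitrary hyperplane arrangements over a number field

Arbitrary arrangements of distinct hyperplanes in projective space over a number field (no general
position, no bound on the number of hyperplanes). Let `X` be the log resolution of the arrangement
obtained by blowing up all its flats (for the braid arrangement this is the moduli space of stable
pointed rational curves), `D` the reduced preimage of the arrangement (a normal crossings divisor). The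
local height of `K_X + D + (n + 1) H` at a place `v` is, up to a bounded function which is zero for
almost all `v`, the largest sum of the local heights of the hyperplanes of a linearly independent
subfamily.

The theorem: the defect `h_{K_X + D}(P) + (n + 1) h(P) - N¹_S(D, P)` of the rational points `P` off the
arrangement, ordered by their height, has a limit law, all its moments converge, and the tail of the
limit law is `exp (-(1 + o(1)) t)`.
-/

set_option autoImplicit false

open NumberField Height Finset IsDedekindDomain LinearAlgebra.Projectivization Filter Topology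
  MeasureTheory

namespace Pool.Agent.Results.MP_9ec3f0_nt.ArrangementLimitLaw

variable {K : Type*} [Field K] {n r : ℕ}

/-- the value at `x` of the linear form with coefficients `a` -/
def lin (a x : Fin (n + 1) → K) : K := ∑ j, a j * x j

/-- the local height of the hyperplane `a = 0` at `x` for the absolute value `f` -/
noncomputable def lam (f : AbsoluteValue K ℝ) (a x : Fin (n + 1) → K) : ℝ :=
  Real.log ((⨆ j, f (a j)) * (⨆ j, f (x j)) / f (lin a x))

/-- the largest sum of local heights over a linearly independent subfamily of the arrangement -/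
noncomputable def wt (f : AbsoluteValue K ℝ) (a : Fin r → Fin (n + 1) → K) (x : Fin (n + 1) → K) : ℝ :=
  ⨆ I : {I : Finset (Fin r) // LinearIndependent K (fun i : I => a i)}, ∑ i ∈ I.1, lam f (a i) x

variable [NumberField K]

/-- the `v`-adic absolute value -/
noncomputable def fv (v : HeightOneSpectrum (𝓞 K)) : AbsoluteValue K ℝ := (FinitePlace.mk v).1

/-- the norm of a prime -/
noncomputable def Nv (v : HeightOneSpectrum (𝓞 K)) : ℝ := (Ideal.absNorm v.asIdeal : ℝ)

/-- the height `h_{K_X + D} + (n + 1) h`: the sum of the local heights `wt` over all places -/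
noncomputable def hW (a : Fin r → Fin (n + 1) → K) (x : Fin (n + 1) → K) : ℝ :=
  ∑ w : InfinitePlace K, (w.mult : ℝ) * wt w.1 a x + ∑ᶠ v : HeightOneSpectrum (𝓞 K), wt (fv v) a x

open Classical in
/-- the truncated counting function of the arrangement: the sum of `log N(v)` over the primes outside
`S` at which the point reduces into one of the hyperplanes -/
noncomputable def N1 (S : Finset (HeightOneSpectrum (𝓞 K))) (a : Fin r → Fin (n + 1) → K)
    (x : Fin (n + 1) → K) : ℝ :=
  ∑ᶠ v : HeightOneSpectrum (𝓞 K), if v ∉ S ∧ ∃ i, 0 < lam (fv v) (a i) x then Real.log (Nv v) else 0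

/-- the defect `h_{K_X + D}(P) + (n + 1) h(P) - N¹_S(D, P)` -/
noncomputable def defect (S : Finset (HeightOneSpectrum (𝓞 K))) (a : Fin r → Fin (n + 1) → K)
    (P : ℙ K (Fin (n + 1) → K)) : ℝ :=
  hW a P.rep - N1 S a P.rep

/-- the points of height at most `B` off the arrangement -/
def Points (a : Fin r → Fin (n + 1) → K) (B : ℝ) : Set (ℙ K (Fin (n + 1) → K)) :=
  {P | (∀ i, lin (a i) P.rep ≠ 0) ∧ P.mulHeight ≤ B}

/-- **The limit law of the defect.** The averages of every continuous function of polynomial growth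
of the defect over the points of height at most `B` off the arrangement converge to its integral with
respect to a probability measure `ν` on `[0, ∞)`, and `c exp (-t) ≤ ν [t, ∞) ≤ C_δ exp (-(1 - δ) t)`
for all `t ≥ 0` and `δ > 0`; the exponential moment of order `b` of `ν` is finite if and only if
`b < 1`. The number of points of height at most `B` with defect at least `t` is at most
`M_δ (exp (-(1 - δ) t) + B ^ (-(1 - δ) / 2)) B ^ (n + 1)`, uniformly in `B` and `t`. -/
theorem result (K : Type) [Field K] [NumberField K] (n r : ℕ) (hn : 1 ≤ n) (hr : 1 ≤ r)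
    (a : Fin r → Fin (n + 1) → K) (ha : ∀ i, a i ≠ 0)
    (hdis : ∀ i j, i ≠ j → ∀ t : K, a j ≠ t • a i) (S : Finset (HeightOneSpectrum (𝓞 K))) :
    (∀ B : ℝ, 1 ≤ B → (Points a B).Finite) ∧
    (∃ ν : Measure ℝ, IsProbabilityMeasure ν ∧ ν (Set.Iio 0) = 0 ∧
      (∀ f : ℝ → ℝ, Continuous f → (∃ (A : ℝ) (k : ℕ), ∀ s, |f s| ≤ A * (1 + |s|) ^ k) →
        Integrable f ν ∧
        Tendsto (fun B : ℝ => (∑ᶠ P ∈ Points a B, f (defect S a P)) /
          ((Points a B).ncard : ℝ)) atTop (𝓝 (∫ s, f s ∂ν))) ∧
      (∃ c : ℝ, 0 < c ∧ ∀ t : ℝ, 0 ≤ t → c * Real.exp (-t) ≤ ν.real (Set.Ici t)) ∧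
      (∀ δ : ℝ, 0 < δ → ∃ C : ℝ, ∀ t : ℝ, 0 ≤ t →
        ν.real (Set.Ici t) ≤ C * Real.exp (-((1 - δ) * t))) ∧
      ∀ b : ℝ, Integrable (fun s => Real.exp (b * s)) ν ↔ b < 1) ∧
    ∀ δ : ℝ, 0 < δ → δ ≤ 1 → ∃ M : ℝ, ∀ B : ℝ, 1 ≤ B → ∀ t : ℝ,
      (({P ∈ Points a B | t ≤ defect S a P}).ncard : ℝ) ≤
        M * (Real.exp (-((1 - δ) * t)) + B ^ (-((1 - δ) / 2))) * B ^ ((n : ℝ) + 1) := by
  have hmh : ∀ P : ℙ K (Fin (n + 1) → K), P.mulHeight = mulHeight P.rep := by
    intro P
    conv_lhs => rw [← P.mk_rep]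
    rw [Projectivization.mulHeight_mk]
  have hPts : ∀ B : ℝ, Points a B = Pool.Agent.L5helper9.Arr.Pts a B := by
    intro B
    ext P
    show (_ ∧ P.mulHeight ≤ B) ↔ _
    rw [hmh]
    exact Iff.rfl
  refine ⟨fun B hB => ?_, ?_, fun δ hδ hδ1 => ?_⟩
  · obtain ⟨M, hM, h⟩ := Pool.Agent.L5helper9.Arr.tailT a ha S 1 one_pos le_rfl
    rw [hPts]
    refine (h B hB 0).1.subset fun P hP => ⟨hP.1, hP.2, ?_⟩
    exact Pool.Agent.L5helper9.Arr.Ed_nonneg S ha P.rep_nonzero hP.1
  · obtain ⟨ν, h1, h2, h3, h4⟩ := Pool.Agent.L5helper9.Arr.arr_law hn hr ha hdis S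
    refine ⟨ν, h1, h2, fun f hf hA => ⟨(h3 f hf hA).1, ?_⟩, h4⟩
    simp only [hPts]
    exact (h3 f hf hA).2
  · obtain ⟨M, hM, h⟩ := Pool.Agent.L5helper9.Arr.tailT a ha S δ hδ hδ1
    refine ⟨M, fun B hB t => ?_⟩
    have h1 : {P ∈ Points a B | t ≤ defect S a P} = {P : ℙ K (Fin (n + 1) → K) |
        (∀ i, Pool.Agent.W232.VA.lin (a i) P.rep ≠ 0) ∧ mulHeight P.rep ≤ B ∧
        t ≤ Pool.Agent.W232.VA.hW a P.rep - Pool.Agent.W232.VA.N1 S a P.rep} := by
      rw [hPts]
      ext P
      constructor
      · rintro ⟨⟨g1, g2⟩, g3⟩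
        exact ⟨g1, g2, g3⟩
      · rintro ⟨g1, g2, g3⟩
        exact ⟨⟨g1, g2⟩, g3⟩
    rw [h1]
    exact (h B hB t).2

end Pool.Agent.Results.MP_9ec3f0_nt.ArrangementLimitLaw
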