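import Pool.Agent.L5helper17.CV.Fin
import Pool.Agent.L5helper17.DR.Fin

/-!
# Vojta's inequality with truncated counting function on curves of any genus, uniformly in the
# number field, for almost all closed points of the linear systems

`A` is the coordinate ring of an affine curve `X` over the number field `K`, geometrically integral
and finite of degree `N` over the line with the coordinate `x`, with the basis `e_1, …, e_N` over
`K[x]`. For `n ≥ 1` let `V_n` be the space of the functions `∑ c_(j,k) x ^ k e_j`, `k ≤ n`. The closed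
points of `X` with the residue field `M` are the `M`-rational points of `X` which generate `M`; we
consider those whose ideal is generated by a member of `V_n`.
-/

set_option autoImplicit false

namespace Pool.Agent.Results.MP_9ec3f0_nt.ClosedPointsOfCurves

open NumberField IsDedekindDomain Module Polynomial
open scoped LinearAlgebra.Projectivization

/-- the function `∑ c_(j,k) x ^ k e_j`, `j < N`, `k ≤ n` (the pairs `(j, k)` are numbered by
`i < N (n + 1)`) -/
noncomputable def member {K A : Type} [Field K] [CommRing A] [Algebra K A] [Algebra K[X] A] {N : ℕ}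
    (e : Fin N → A) (n : ℕ) (c : Fin (N * (n + 1)) → K) : A :=
  ∑ i, c i • ((X : K[X]) ^ ((finProdFinEquiv.symm i).2 : ℕ) • e (finProdFinEquiv.symm i).1)

section

variable {K A M : Type} [Field K] [CommRing A] [Algebra K A] [Algebra K[X] A] [Field M]
  [NumberField M] [Algebra K M]

/-- the point `φ` of the curve over `M` meets the point with the equations `g_1, …, g_u` at the prime
`w`, and `w` does not divide a number in `S` -/
def Meets (S : Finset ℕ) {u : ℕ} (g : Fin u → A) (φ : A →ₐ[K] M) (w : HeightOneSpectrum (𝓞 M)) :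
    Prop :=
  (∀ p ∈ S, p ≠ 0 → (p : 𝓞 M) ∉ w.asIdeal) ∧ w.valuation M (φ (algebraMap K[X] A X)) ≤ 1 ∧
    ∀ i, w.valuation M (φ (g i)) < 1

/-- the truncated counting function `N_S^(1)(D, φ)` over `M`, `D` the sum of the points with the
equations `g_j`: the sum of `log N(w)` over the primes `w` of `M` outside `S` at which `φ` meets
`D` -/
noncomputable def N1 (S : Finset ℕ) {q : ℕ} {u : Fin q → ℕ} (g : ∀ j, Fin (u j) → A)
    (φ : A →ₐ[K] M) : ℝ :=
  ∑ᶠ w ∈ {w : HeightOneSpectrum (𝓞 M) | ∃ j, Meets S (g j) φ w},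
    Real.log (Ideal.absNorm w.asIdeal : ℝ)

theorem finite_near {z : M} (hz : z ≠ 0) :
    {w : HeightOneSpectrum (𝓞 M) | w.valuation M z < 1}.Finite := by
  refine (Pool.Agent.H691R3.fv_support_finite hz).subset fun w hw => ?_
  have h1 := (Pool.Agent.L5helper17.DR.fv_lt_one w z).2 hw
  exact h1.ne

theorem finite_meets (S : Finset ℕ) {q : ℕ} {u : Fin q → ℕ} (g : ∀ j, Fin (u j) → A)
    (φ : A →ₐ[K] M) (hmax : ∀ j, (Ideal.span (Set.range (g j))).IsMaximal)
    (hne : ∀ j, RingHom.ker φ ≠ Ideal.span (Set.range (g j))) :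
    {w : HeightOneSpectrum (𝓞 M) | ∃ j, Meets S (g j) φ w}.Finite := by
  have h1 : ∀ j, ∃ i, φ (g j i) ≠ 0 := by
    intro j
    by_contra hcon
    push Not at hcon
    apply hne j
    symm
    refine (hmax j).eq_of_le (RingHom.ker_isPrime φ).ne_top ?_
    rw [Ideal.span_le]
    rintro _ ⟨i, rfl⟩
    exact hcon i
  choose i hi using h1
  refine (Set.finite_iUnion fun j => finite_near (hi j)).subset ?_
  rintro w ⟨j, hj⟩
  rw [Set.mem_iUnion]
  exact ⟨j, hj.2.2 (i j)⟩

theorem sum_le_N1 (S : Finset ℕ) {q : ℕ} {u : Fin q → ℕ} (g : ∀ j, Fin (u j) → A)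
    (φ : A →ₐ[K] M) (hmax : ∀ j, (Ideal.span (Set.range (g j))).IsMaximal)
    (hne : ∀ j, RingHom.ker φ ≠ Ideal.span (Set.range (g j)))
    (W : Finset (HeightOneSpectrum (𝓞 M))) (hW : ∀ w ∈ W, ∃ j, Meets S (g j) φ w) :
    ∑ w ∈ W, Pool.Agent.N753.DR.lN w ≤ N1 S g φ := by
  have hfin := finite_meets S g φ hmax hne
  unfold N1
  rw [finsum_mem_eq_finite_toFinset_sum _ hfin]
  refine Finset.sum_le_sum_of_subset_of_nonneg (fun w hw => ?_) fun w _ _ =>
    Real.log_natCast_nonneg _
  rw [Set.Finite.mem_toFinset]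
  exact hW w hw

end

/-- **The truncated inequality on curves, uniformly in the number field.** Let `K` be a number field,
`A` the coordinate ring of an affine curve over `K`, geometrically integral and finite over `K[x]`,
with a basis `e_1, …, e_N` over `K[x]` which contains `1`. For `n ≥ 1` there is ONE set `E_n` of
members `c` of `V_n` such that:
(1) `E_n` contains at most `C exp (N (n + 1) U - √U)` members of logarithmic height at most `U` (the
number of all of them is of order `exp (N (n + 1) U)`);
(2) for all finite sets `D = {Q_1, …, Q_q}` of closed points of degree at most `2 n + 1`, all finite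
sets `S` of primes and all `ε > 0` there is `C` such that for ALL number fields `M` containing `K` and
all closed points `P` of the curve with the residue field `M`, not in `D`, whose ideal is generated
by a member `c` not in `E_n`:
`(deg D - ε) h(c) ≤ N_S^(1)(D, P) + C`, and `(deg D - ε) / N * h(x(P)) ≤ N_S^(1)(D, P) + C`,
where `h` is the logarithmic height relative to `K`, respectively `M`, and `D` is not empty;
(3) for all `G ≥ 0` and all large `n` there is `C` such that the discriminant of the residue field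
`M` of all these points satisfies `log |d_M| ≥ G h(c) - C`. -/
theorem result (K A : Type) [Field K] [NumberField K] [CommRing A] [IsDomain A]
    [Algebra K A] [Algebra K[X] A] [IsScalarTower K K[X] A] [Module.Finite K[X] A]
    [FaithfulSMul K[X] A] (hA : IsDomain (TensorProduct K (AlgebraicClosure K) A))
    (N : ℕ) (e : Basis (Fin N) K[X] A) (he : ∃ i, e i = 1) :
    ∃ E : ∀ n : ℕ, Set (ℙ K (Fin (N * (n + 1)) → K)),
      (∀ n : ℕ, 1 ≤ n →
        (∃ C : ℝ, ∀ U : ℝ, 0 ≤ U →
          {c : ℙ K (Fin (N * (n + 1)) → K) | c ∈ E n ∧ Height.logHeight c.rep ≤ U}.Finite ∧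
          ({c : ℙ K (Fin (N * (n + 1)) → K) | c ∈ E n ∧ Height.logHeight c.rep ≤ U}.ncard : ℝ) ≤
            C * Real.exp (N * (n + 1) * U - √U)) ∧
        ∀ (q : ℕ) (u : Fin q → ℕ) (g : ∀ j, Fin (u j) → A), 1 ≤ q →
          (∀ j, (Ideal.span (Set.range (g j))).IsMaximal) →
          (∀ i j, i ≠ j → Ideal.span (Set.range (g i)) ≠ Ideal.span (Set.range (g j))) →
          (∀ j, finrank K (A ⧸ Ideal.span (Set.range (g j))) ≤ 2 * n + 1) →
          ∀ (S : Finset ℕ) (ε : ℝ), 0 < ε → ∃ C : ℝ,
            ∀ (M : Type) [Field M] [NumberField M] [Algebra K M] (φ : A →ₐ[K] M)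
              (c : ℙ K (Fin (N * (n + 1)) → K)), c ∉ E n → Function.Surjective φ →
              RingHom.ker φ = Ideal.span {member e n c.rep} →
              (∀ j, RingHom.ker φ ≠ Ideal.span (Set.range (g j))) →
              ((∑ j, finrank K (A ⧸ Ideal.span (Set.range (g j))) : ℕ) - ε) *
                  Height.logHeight c.rep ≤ N1 S g φ + C ∧
              ((∑ j, finrank K (A ⧸ Ideal.span (Set.range (g j))) : ℕ) - ε) / N *
                  Height.logHeight₁ (φ (algebraMap K[X] A X)) ≤ N1 S g φ + C) ∧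
      ∀ G : ℝ, 0 ≤ G → ∃ n₀ : ℕ, ∀ n : ℕ, n₀ ≤ n → ∃ C : ℝ,
        ∀ (M : Type) [Field M] [NumberField M] [Algebra K M] (φ : A →ₐ[K] M)
          (c : ℙ K (Fin (N * (n + 1)) → K)), c ∉ E n → Function.Surjective φ →
          RingHom.ker φ = Ideal.span {member e n c.rep} →
          G * Height.logHeight c.rep ≤ Real.log |(discr M : ℝ)| + C := by
  obtain ⟨E, h1, h2⟩ := Pool.Agent.L5helper17.CV.systems K A hA N e he
  refine ⟨E, fun n hn => ⟨?_, ?_⟩, h2⟩
  · obtain ⟨C, hC⟩ := (h1 n hn).1
    refine ⟨C, fun U hU => ?_⟩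
    have h3 := hC U hU
    push_cast at h3
    exact h3
  · intro q u g hq hmax hdist hdeg S ε hε
    obtain ⟨C, hC⟩ := (h1 n hn).2.1 q u g hmax hdist hdeg S ε hε
    obtain ⟨C', hC'⟩ := (h1 n hn).2.2
    have hN0 : (0 : ℝ) < N := by
      obtain ⟨i, _⟩ := he
      have := i.2
      exact_mod_cast (by omega : 0 < N)
    have hdd : ∀ j, 1 ≤ finrank K (A ⧸ Ideal.span (Set.range (g j))) := by
      intro j
      obtain ⟨L, i1, i2, i3, ψ, -, -, h⟩ := Pool.Agent.L5helper17.CV.residue K A _ (hmax j)
      rw [← h]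
      have : FiniteDimensional K L := Module.Finite.of_restrictScalars_finite ℚ K L
      exact Module.finrank_pos
    set d : ℕ := ∑ j, finrank K (A ⧸ Ideal.span (Set.range (g j))) with hd
    refine ⟨|C| + |((d : ℝ) - ε) / N * C'|, ?_⟩
    intro M _ _ _ φ c hcE hφ hker hne
    obtain ⟨W, hW1, hW2⟩ := hC M φ c hcE hφ hker hne
    have h3 := sum_le_N1 S g φ hmax hne W hW1
    have h4 := hC' M φ c hφ hker
    have e1 : (∑ j, (finrank K (A ⧸ Ideal.span (Set.range (g j))) : ℝ)) = d := by
      rw [hd]
      push_cast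
      rfl
    rw [e1] at hW2
    have h5 := le_abs_self C
    have h6 : 0 ≤ |((d : ℝ) - ε) / N * C'| := abs_nonneg _
    have h0 : 0 ≤ N1 S g φ := by
      refine le_trans (Finset.sum_nonneg fun w _ => ?_) h3
      exact Real.log_natCast_nonneg _
    refine ⟨by linarith, ?_⟩
    have hh : 0 ≤ Height.logHeight₁ (φ (algebraMap K[X] A X)) := Height.zero_le_logHeight₁ _
    rcases le_or_gt 0 ((d : ℝ) - ε) with hpos | hneg
    · have h7 : 0 ≤ ((d : ℝ) - ε) / N := div_nonneg hpos hN0.le
      have h8 := mul_le_mul_of_nonneg_left h4 h7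
      have e2 : ((d : ℝ) - ε) / N * (N * Height.logHeight c.rep + C') =
          (d - ε) * Height.logHeight c.rep + ((d : ℝ) - ε) / N * C' := by
        field_simp
      rw [e2] at h8
      have h9 := le_abs_self (((d : ℝ) - ε) / N * C')
      linarith
    · have h7 : ((d : ℝ) - ε) / N ≤ 0 := div_nonpos_of_nonpos_of_nonneg hneg.le hN0.le
      have h8 := mul_nonpos_of_nonpos_of_nonneg h7 hh
      have h9 : 0 ≤ |C| := abs_nonneg _
      linarith

end Pool.Agent.Results.MP_9ec3f0_nt.ClosedPointsOfCurves
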