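import Pool.Agent.L5helper15.ST.Main

set_option autoImplicit false

/-!
# Vojta's conjecture with truncated counting function: the size of the error term

`X = ℙ^n` over any number field `K`. The conjecture says
`N_S^{(1)}(D, P) ≥ h_{K_X + D}(P) - ε h(P) - C` outside a proper closed subset. Let `D` be a divisor of
degree `d` (so that `h_{K_X + D} = (d - n - 1) h`) which contains `n + 1` hyperplanes in general
position and `l` further components with a common `K`-point off these hyperplanes; for a normal
crossings divisor `l ≤ n`, and `l = n` is possible in every dimension. Then `ε h` cannot be replaced by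
`c h ^ (l / (l + 1)) / log h` for a small `c > 0`, not even outside of a hypersurface of degree
`exp (c h ^ (l / (l + 1)) / log h)`.

So in dimension `n` the error term is at least `h ^ (n / (n + 1) - o(1))` for suitable `D`, for instance
for any `2 n + 1` hyperplanes in general position; and no error term `h ^ θ`, `θ < 1`, is admissible for
all `n`. For `n = 1` this is the exponent `1/2` of Stewart and Tijdeman for the abc conjecture. The gain
in higher dimension comes from the truncation: the primes which divide the `n + 1` coordinates are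
counted only once, while each of the `l` components is small.

Proof. There are `(h / (C y)) ^ π(y)` natural numbers up to `e ^ h` composed of primes `≤ y`; by the
pigeonhole principle a class of at least `δ + d + 1` of them has logarithms within `λ` of each other, with
`log λ` about `-π(y) log (h / y)`. Let `L_j` be the hyperplanes, `z` the common point. The points `x` with
`L_j(x) = L_j(z) s_j`, `s_j` in this class, are archimedeanly within `O(λ)` of `z`, so that the `l` further
forms are smaller by a factor `λ ^ l`, while the primes dividing the `L_j(x)` contribute only `π(y) log y`.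
The choice `y = c h ^ (l / (l + 1))` gives the result. A polynomial of degree `δ + d` does not vanish at
all tuples from the class.
-/

namespace Pool.Agent.Results.MP_9ec3f0_nt.ErrorTermExponent

open NumberField IsDedekindDomain

/-- The linear form with coefficients `l`. -/
noncomputable def linearForm {K : Type} [Field K] {n : ℕ} (l : Fin (n + 1) → K) :
    MvPolynomial (Fin (n + 1)) K :=
  ∑ j, MvPolynomial.C (l j) * MvPolynomial.X j

variable {K : Type} [Field K] [NumberField K] {n : ℕ}

/-- The local height at the prime `v` of the point with homogeneous coordinates `x`, relative to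
the divisor `F = 0`, where `F` is a form of degree `d` (with respect to the closure of this divisor
in the projective space over the local ring of `v`). -/
noncomputable def weil (v : HeightOneSpectrum (𝓞 K)) (F : MvPolynomial (Fin (n + 1)) K) (d : ℕ)
    (x : Fin (n + 1) → K) : ℝ :=
  Real.log ((⨆ m, FinitePlace.mk v (F.coeff m)) * (⨆ j, FinitePlace.mk v (x j)) ^ d /
    FinitePlace.mk v (MvPolynomial.eval x F))

/-- The truncated counting function `N_S^{(1)}(D, P)` of the divisor `D = {F = 0}` at the point
with homogeneous coordinates `x`: the sum of `log N(v)` over the primes `v` outside `S` at which the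
local height is positive. -/
noncomputable def truncated (S : Set (HeightOneSpectrum (𝓞 K)))
    (F : MvPolynomial (Fin (n + 1)) K) (d : ℕ) (x : Fin (n + 1) → K) : ℝ :=
  ∑ᶠ v ∈ {v : HeightOneSpectrum (𝓞 K) | v ∉ S ∧ 0 < weil v F d x},
    Real.log (Ideal.absNorm v.asIdeal : ℝ)

/-- In the truncated Vojta inequality for the divisor `F = 0` of degree `d` of `ℙ^n` the error term is at
least `c H ^ θ / log H`: for some `c > 0`, all large `H`, all `S` and all forms `G ≠ 0` of degree
`δ ≤ exp (c H ^ θ / log H)` over an extension of `K` there is a `K`-point of height at most `H` off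
`F = 0` and off `G = 0` with `N_S^{(1)}(D, P) ≤ (d - n - 1) h(P) - c H ^ θ / log H`. -/
def ErrorAtLeast (F : MvPolynomial (Fin (n + 1)) K) (d : ℕ) (θ : ℝ) : Prop :=
  ∃ c : ℝ, 0 < c ∧ ∃ H₀ : ℝ, ∀ H : ℝ, H₀ ≤ H → ∀ S : Set (HeightOneSpectrum (𝓞 K)),
    ∀ (Ω : Type) [Field Ω] [Algebra K Ω] (G : MvPolynomial (Fin (n + 1)) Ω) (δ : ℕ),
    G ≠ 0 → G.IsHomogeneous δ → (δ : ℝ) ≤ Real.exp (c * (H ^ θ / Real.log H)) →
    ∃ x : Fin (n + 1) → K, MvPolynomial.eval x F ≠ 0 ∧
      MvPolynomial.eval (fun j => algebraMap K Ω (x j)) G ≠ 0 ∧ Height.logHeight x ≤ H ∧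
      truncated S F d x ≤ ((d : ℝ) - n - 1) * Height.logHeight x - c * (H ^ θ / Real.log H)

theorem general {l d : ℕ} (hl : 1 ≤ l)
    (L : Fin (n + 1) → Fin (n + 1) → K) (hL : LinearIndependent K L)
    (F : MvPolynomial (Fin (n + 1)) K) (hF : F ≠ 0) (hFd : F.IsHomogeneous d)
    (P : Fin l → MvPolynomial (Fin (n + 1)) K) (e : Fin l → ℕ)
    (hP : ∀ i, (P i).IsHomogeneous (e i)) (hdiv : (∏ j, linearForm (L j)) * (∏ i, P i) ∣ F)
    (z : Fin (n + 1) → K) (hz : ∀ i, MvPolynomial.eval z (P i) = 0)
    (hzL : ∀ j, ∑ k, L j k * z k ≠ 0) : ErrorAtLeast F d ((l : ℝ) / (l + 1)) := by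
  obtain ⟨c, hc, H₀, h⟩ := Pool.Agent.L5helper15.ST.main hl L hL F hF hFd P e hP hdiv z hz hzL
  refine ⟨c, hc, H₀, fun H hH S Ω _ _ G δ hG hGδ hδ => ?_⟩
  obtain ⟨x, hFx, hGx, hhx, hfin, hsum⟩ := h H hH Ω G δ hG hGδ hδ
  refine ⟨x, hFx, hGx, hhx, ?_⟩
  have hsub : ∀ v : HeightOneSpectrum (𝓞 K), 0 < weil v F d x →
      Pool.Agent.W231.H.Bad v F d x := by
    intro v hv
    by_contra hcon
    unfold Pool.Agent.W231.H.Bad at hcon
    push Not at hcon
    refine absurd hv (not_lt.2 ?_)
    have h0 : 0 < FinitePlace.mk v (MvPolynomial.eval x F) := FinitePlace.pos_iff.2 hFx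
    refine Real.log_nonpos ?_ ?_
    · refine div_nonneg (mul_nonneg ?_ (pow_nonneg ?_ _)) h0.le
      · exact Real.iSup_nonneg fun j => apply_nonneg _ _
      · exact Real.iSup_nonneg fun j => apply_nonneg _ _
    · rw [div_le_one h0]
      exact hcon
  have hfin' : {v : HeightOneSpectrum (𝓞 K) | v ∉ S ∧ 0 < weil v F d x}.Finite :=
    hfin.subset fun v hv => hsub v hv.2
  have htr : truncated S F d x = ∑ v ∈ hfin'.toFinset, Pool.Agent.W231.V.ell v := by
    unfold truncated
    rw [finsum_mem_eq_finite_toFinset_sum _ hfin']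
    rfl
  rw [htr]
  exact hsum hfin'.toFinset fun v hv => hsub v (hfin'.mem_toFinset.1 hv).2

/-- `l` of `n + 1 + l` hyperplanes in general position, `l ≤ n`, meet off the other ones -/
theorem common_point {l : ℕ} (hln : l ≤ n) (L : Fin (n + 1 + l) → Fin (n + 1) → K)
    (hgp : ∀ I : Finset (Fin (n + 1 + l)), I.card = n + 1 → LinearIndependent K (fun i : I => L i)) :
    ∃ z : Fin (n + 1) → K, (∀ i : Fin l, ∑ k, L (Fin.natAdd (n + 1) i) k * z k = 0) ∧
      ∀ j : Fin (n + 1), ∑ k, L (Fin.castAdd l j) k * z k ≠ 0 := by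
  classical
  obtain ⟨a, ha⟩ : ∃ a : ℕ, n + 1 = a + l := ⟨n + 1 - l, by omega⟩
  have ha1 : 1 ≤ a := by omega
  set ef : Fin (n + 1) → Fin (n + 1 + l) := fun k => if h : (k : ℕ) < a then ⟨k, by omega⟩ else
    ⟨n + 1 + (k - a), by omega⟩ with hef
  have hefv : ∀ k, (ef k : ℕ) = if (k : ℕ) < a then (k : ℕ) else n + 1 + (k - a) := by
    intro k
    simp only [hef]
    split_ifs <;> rfl
  have hinj : Function.Injective ef := by
    intro k k' hk
    have h1 := congrArg Fin.val hk
    rw [hefv, hefv] at h1
    apply Fin.ext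
    split_ifs at h1 <;> omega
  obtain ⟨f, hf1, hf2⟩ := Pool.Agent.W231.V.exists_dual L hgp ⟨ef, hinj⟩
  have hf1' : ∀ k m, ∑ j, L (ef k) j * f m j = if k = m then 1 else 0 := hf1
  have hf2' : ∀ i, (∀ k, ef k ≠ i) → ∀ m, ∑ j, L i j * f m j ≠ 0 := hf2
  have hinf : Infinite K := CharZero.infinite K
  set emb : Fin a → Fin (n + 1) := fun m => ⟨m, by omega⟩ with hemb
  obtain ⟨p, -, hp⟩ := Pool.Agent.W231.V.exists_point (K := K) (Ω := K) (1 : MvPolynomial (Fin a) K)
    one_ne_zero (Finset.univ : Finset (Fin (n + 1)))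
    (fun j m => ∑ k, L (Fin.castAdd l j) k * f (emb m) k) (by
      intro j _
      by_cases hj : (j : ℕ) < a
      · refine ⟨Pi.single ⟨j, hj⟩ 1, ?_⟩
        have h1 : ∑ m : Fin a, (∑ k, L (Fin.castAdd l j) k * f (emb m) k) *
            (Pi.single (⟨j, hj⟩ : Fin a) (1 : K) : Fin a → K) m = 1 := by
          have h2 : Fin.castAdd l j = ef j := by
            apply Fin.ext
            rw [hefv, if_pos hj]
            rfl
          simp only [Pi.single_apply, mul_ite, mul_one, mul_zero, Finset.sum_ite_eq', Finset.mem_univ,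
            if_true]
          rw [h2, hf1', if_pos]
          rfl
        rw [h1]
        exact one_ne_zero
      · refine ⟨Pi.single ⟨0, ha1⟩ 1, ?_⟩
        simp only [Pi.single_apply, mul_ite, mul_one, mul_zero, Finset.sum_ite_eq', Finset.mem_univ,
          if_true]
        apply hf2'
        intro k hk
        have h1 := congrArg Fin.val hk
        rw [hefv] at h1
        have h2 : ((Fin.castAdd l j : Fin (n + 1 + l)) : ℕ) = j := rfl
        rw [h2] at h1
        have := j.2
        split_ifs at h1 <;> omega)
  have hexp : ∀ i, ∑ k, L i k * (∑ m : Fin a, p m * f (emb m) k) =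
      ∑ m : Fin a, (∑ k, L i k * f (emb m) k) * p m := by
    intro i
    simp_rw [Finset.mul_sum, Finset.sum_mul]
    rw [Finset.sum_comm]
    refine Finset.sum_congr rfl fun m _ => Finset.sum_congr rfl fun k _ => ?_
    ring
  refine ⟨fun k => ∑ m : Fin a, p m * f (emb m) k, fun i => ?_, fun j => ?_⟩
  · rw [hexp]
    refine Finset.sum_eq_zero fun m _ => ?_
    have h1 : Fin.natAdd (n + 1) i = ef ⟨a + i, by omega⟩ := by
      apply Fin.ext
      rw [hefv]
      simp only [Fin.val_natAdd]
      rw [if_neg (by omega)]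
      omega
    rw [h1, hf1', if_neg, zero_mul]
    intro h
    have h2 := congrArg Fin.val h
    simp only [hemb] at h2
    have := m.2
    omega
  · rw [hexp]
    exact hp j (Finset.mem_univ j)

/-- `K` any number field. (1) `D = {F = 0}` any divisor of degree `d` of `ℙ^n` which contains `n + 1`
hyperplanes `L_j = 0` in general position and `l ≥ 1` further hypersurfaces `P_i = 0` with a common
`K`-point `z` off these hyperplanes: the error term is at least `c H ^ (l / (l + 1)) / log H`.
(2) The same if `D` contains `n + 1 + l` hyperplanes in general position, `1 ≤ l ≤ n`; so the exponent is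
`n / (n + 1)` for `2 n + 1` hyperplanes in general position. -/
theorem result (K : Type) [Field K] [NumberField K] (n l d : ℕ) (hl : 1 ≤ l)
    (F : MvPolynomial (Fin (n + 1)) K) (hF : F ≠ 0) (hFd : F.IsHomogeneous d) :
    (∀ (L : Fin (n + 1) → Fin (n + 1) → K) (P : Fin l → MvPolynomial (Fin (n + 1)) K) (e : Fin l → ℕ)
        (z : Fin (n + 1) → K), LinearIndependent K L → (∀ i, (P i).IsHomogeneous (e i)) →
        (∏ j, linearForm (L j)) * (∏ i, P i) ∣ F → (∀ i, MvPolynomial.eval z (P i) = 0) →
        (∀ j, ∑ k, L j k * z k ≠ 0) → ErrorAtLeast F d ((l : ℝ) / (l + 1))) ∧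
    (l ≤ n → ∀ L : Fin (n + 1 + l) → Fin (n + 1) → K,
        (∀ I : Finset (Fin (n + 1 + l)), I.card = n + 1 → LinearIndependent K (fun i : I => L i)) →
        (∏ i, linearForm (L i)) ∣ F → ErrorAtLeast F d ((l : ℝ) / (l + 1))) := by
  classical
  refine ⟨fun L P e z hL hP hdiv hz hzL => general hl L hL F hF hFd P e hP hdiv z hz hzL,
    fun hln L hgp hdiv => ?_⟩
  obtain ⟨z, hz1, hz2⟩ := common_point hln L hgp
  have hlinh : ∀ l : Fin (n + 1) → K, (linearForm l).IsHomogeneous 1 := by
    intro l
    unfold linearForm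
    refine MvPolynomial.IsHomogeneous.sum _ _ _ fun j _ => ?_
    have := (MvPolynomial.isHomogeneous_C (Fin (n + 1)) (l j)).mul
      (MvPolynomial.isHomogeneous_X K j)
    rwa [zero_add] at this
  refine general hl (fun j => L (Fin.castAdd l j)) ?_ F hF hFd
    (fun i => linearForm (L (Fin.natAdd (n + 1) i))) (fun _ => 1) (fun i => hlinh _) ?_ z ?_ hz2
  · have h1 := hgp (Finset.univ.map (Fin.castAddEmb l)) (by simp)
    have h2 : Function.Injective (fun j : Fin (n + 1) =>
        (⟨Fin.castAdd l j, Finset.mem_map.mpr ⟨j, Finset.mem_univ j, rfl⟩⟩ :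
          (Finset.univ.map (Fin.castAddEmb l) : Finset (Fin (n + 1 + l))))) := by
      intro j j' h
      exact Fin.castAdd_injective _ _ (congrArg Subtype.val h)
    exact h1.comp _ h2
  · rw [Fin.prod_univ_add] at hdiv
    exact hdiv
  · intro i
    have := Pool.Agent.W231.H.lin_eval (L (Fin.natAdd (n + 1) i)) z
    exact this.trans (hz1 i)

end Pool.Agent.Results.MP_9ec3f0_nt.ErrorTermExponent
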