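import Pool.Agent.L5helper92.TS.Main

/-!
# Vojta's truncated inequality on the projective line over `ℚ` follows from its restriction to
arbitrarily thin sets of points

We consider Vojta's conjecture with truncated counting function for `K = ℚ`, `X = ℙ¹`, the divisor
`D = 0 + 1 + ∞` and any finite set `S` of primes (and the archimedean place). Definitions
(`Pool.Agent.L5helper92.TS`), for a rational number `x = a / b` in lowest terms:

* `ht x = log max (|a|, b)` is the height `h_H (x)`, `H = O(1)`; it is also `h_{K_X + D} (x)`;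
* `N1 S x = ∑ log p`, over the primes `p ∉ S` which divide `a b (b - a)`, is `N_S^{(1)} (D, x)`;
* `Truncated S E`, for a set `E` of rational numbers: for all `ε > 0` and all `C` the inequality
  `N1 S x ≥ ht x - ε ht x - C` holds for all but finitely many `x ∈ E`, `x ≠ 0, 1`. So
  `Truncated S Set.univ` is Vojta's conjecture for `ℚ, ℙ¹, D, S`;
* `Dih n N δ Y` is the set of the numbers `(Q / P) ^ 2` where `P > Q ≥ 1` are coprime, `P + Q` and
  `P - Q` are perfect `n`-th powers, `N ∣ Q`, `Q ≤ δ P` (so that the number is near to `0` at the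
  archimedean place and at the primes dividing `N`), and the height `P ^ 2` is in one of the windows
  `[Y i, (Y i) ^ (1 + δ)]`;
* `Img p q E` is the set of the values `φ (t) = p (t) / (p (t) + q (t))` at the `t ∈ E` which are not
  poles of `φ`.

The function `φ` in the theorem is a Belyi function: by the Riemann-Hurwitz formula at least `d + 2`
points are mapped to `0, 1, ∞` by a rational function `φ` of degree `d`, with equality if and only if
`φ` is not ramified outside of these points; we assume that these points are `0, 1, ∞` and the at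
most `d - 1` zeros of `g`. Examples are the Möbius transformations which permute `0, 1, ∞`
(`d = 1`), the powers `t ^ d`, the octahedral function
`(t ^ 12 - 33 t ^ 8 - 33 t ^ 4 + 1) ^ 2 / (t ^ 8 + 14 t ^ 4 + 1) ^ 3` (`d = 24`), the maps from modular
curves of genus zero with three rational cusps to the `j`-line, and all the compositions of such
functions which map `{0, 1, ∞}` to itself.
-/

set_option autoImplicit false

namespace Pool.Agent.Results.MP_9ec3f0_nt.ThinSubsets

open Filter Polynomial Pool.Agent.L5helper92.TS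

/-- Let `φ = p / (p + q)` be a rational function of degree `d` over `ℚ` such that all points which
`φ` maps to `0, 1, ∞` are among `0, 1, ∞` and the zeros of a polynomial `g` of degree at most
`d - 1`. Let `S` be a finite set of primes, `n, N ≥ 1`, `δ > 0`, and let `Y i > 1` be a sequence
which tends to infinity with `Y (i + 1) ≤ (Y i) ^ r`. Vojta's truncated inequality for the projective
line, `0 + 1 + ∞` and `S` holds for all rational points if and only if it holds for the values of `φ`
at the numbers `(Q / P) ^ 2`, `P > Q ≥ 1` coprime, `P + Q` and `P - Q` perfect `n`-th powers, `N ∣ Q`,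
`Q ≤ δ P`, `P ^ 2` in one of the windows `[Y i, (Y i) ^ (1 + δ)]`. There are only
`O (X ^ (1 / (d n)))` of these values with numerator and denominator at most `X`. -/
theorem result (S : Finset ℕ) (n N r : ℕ) (hn : 1 ≤ n) (hN : 1 ≤ N) (δ : ℝ) (hδ : 0 < δ)
    (Y : ℕ → ℝ) (hY : ∀ i, 1 < Y i) (hYt : Tendsto Y atTop atTop)
    (hYr : ∀ i, Y (i + 1) ≤ (Y i) ^ r)
    (d : ℕ) (p q g : ℤ[X]) (hp : p.natDegree ≤ d) (hq : q.natDegree ≤ d)
    (hd : p.natDegree = d ∨ q.natDegree = d) (hcop : ∀ z : ℂ, aeval z p ≠ 0 ∨ aeval z q ≠ 0)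
    (hg : g ≠ 0) (hgd : g.natDegree + 1 ≤ d) (h0 : p * q * (p + q) ≠ 0)
    (hz : ∀ z : ℂ, aeval z (p * q * (p + q)) = 0 → z = 0 ∨ z = 1 ∨ aeval z g = 0) :
    (Truncated S (Img p q (Dih n N δ Y)) ↔ Truncated S Set.univ) ∧
    ∃ C : ℝ, ∀ X : ℝ, 1 ≤ X →
      {x : ℚ | x ∈ Img p q (Dih n N δ Y) ∧ max (x.num.natAbs : ℝ) x.den ≤ X}.Finite ∧
      ({x : ℚ | x ∈ Img p q (Dih n N δ Y) ∧ max (x.num.natAbs : ℝ) x.den ≤ X}.ncard : ℝ) ≤
        C * X ^ (1 / (d * n : ℝ)) :=
  main S n N r hn hN δ hδ Y hY hYt hYr d p q g hp hq hd hcop hg hgd h0 hz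

end Pool.Agent.Results.MP_9ec3f0_nt.ThinSubsets
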